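import Pool.Agent.N641.VB.Stm8

set_option autoImplicit false

/-!
Project VB, part AUA (helper221): Boolean algebras with an automorphism of prime order.
-/

namespace Pool.Agent.N221.VB.AUA

open Pool.Agent.N641.VB Finset

/-! ### Points -/

/-- points of the Stone space -/
structure Pt (B : Type) [BooleanAlgebra B] where
  v : B → Prop
  top : v ⊤
  inf : ∀ a b, v (a ⊓ b) ↔ v a ∧ v b
  compl : ∀ a, v aᶜ ↔ ¬ v a

section Points

variable {B : Type} [BooleanAlgebra B]

theorem pbot (q : Pt B) : ¬ q.v ⊥ := by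
  have h := q.compl ⊤
  rw [compl_top] at h
  rw [h]
  exact not_not.2 q.top

theorem psup (q : Pt B) (a b : B) : q.v (a ⊔ b) ↔ q.v a ∨ q.v b := by
  have h : a ⊔ b = (aᶜ ⊓ bᶜ)ᶜ := by rw [compl_inf, compl_compl, compl_compl]
  rw [h, q.compl, q.inf, q.compl, q.compl]
  tauto

theorem pfsup (q : Pt B) {ι : Type} (s : Finset ι) (f : ι → B) :
    q.v (s.sup f) ↔ ∃ i ∈ s, q.v (f i) := by
  classical
  induction s using Finset.induction_on with
  | empty => simp [pbot q]
  | insert a s ha ih => rw [Finset.sup_insert, psup, ih]; simp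

theorem pfinf (q : Pt B) {ι : Type} (s : Finset ι) (f : ι → B) :
    q.v (s.inf f) ↔ ∀ i ∈ s, q.v (f i) := by
  classical
  induction s using Finset.induction_on with
  | empty => simp [q.top]
  | insert a s ha ih => rw [Finset.inf_insert, q.inf, ih]; simp

theorem pmono (q : Pt B) {a b : B} (h : a ≤ b) (ha : q.v a) : q.v b := by
  have h1 : a ⊓ b = a := inf_eq_left.2 h
  rw [← h1, q.inf] at ha
  exact ha.2

theorem le_of {a b : B} (h : ∀ q : Pt B, q.v a → q.v b) : a ≤ b := by
  by_contra hab
  obtain ⟨J, hJ, hIJ, hFJ⟩ := DistribLattice.prime_ideal_of_disjoint_filter_ideal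
    (F := Order.PFilter.principal a) (I := Order.Ideal.principal b) (by
      rw [Set.disjoint_left]
      intro x hx hx'
      exact hab (le_trans (Order.PFilter.mem_principal.1 hx) (Order.Ideal.mem_principal.1 hx')))
  let q : Pt B :=
    { v := fun x => x ∉ J
      top := hJ.toIsProper.top_notMem
      inf := by
        intro x y
        constructor
        · intro hxy
          exact ⟨fun hx => hxy (J.lower inf_le_left hx), fun hy => hxy (J.lower inf_le_right hy)⟩
        · rintro ⟨hx, hy⟩ hxy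
          rcases hJ.mem_or_mem hxy with h1 | h1
          · exact hx h1
          · exact hy h1
      compl := by
        intro x
        constructor
        · intro h1 h2
          rcases hJ.mem_or_compl_mem (x := x) with h3 | h3
          · exact h2 h3
          · exact h1 h3
        · intro h1 h2
          exact h1 (hJ.toIsProper.notMem_of_compl_mem h2) }
  have h1 : q.v a := by
    intro ha
    exact Set.disjoint_left.1 hFJ (Order.PFilter.mem_principal.2 le_rfl) ha
  exact h q h1 (hIJ (Order.Ideal.mem_principal.2 le_rfl))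

theorem ext_of {a b : B} (h : ∀ q : Pt B, q.v a ↔ q.v b) : a = b :=
  le_antisymm (le_of fun q => (h q).1) (le_of fun q => (h q).2)

/-- transport by an automorphism -/
def tr (e : B ≃o B) (q : Pt B) : Pt B where
  v := fun a => q.v (e a)
  top := by rw [map_top]; exact q.top
  inf := fun a b => by rw [map_inf, q.inf]
  compl := fun a => by rw [map_compl' e a, q.compl]

theorem psymm (q : Pt B) (a b : B) : q.v (symmDiff a b) ↔ ¬ (q.v a ↔ q.v b) := by
  rw [symmDiff_eq, psup, q.inf, q.inf, q.compl, q.compl]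
  tauto

end Points

/-! ### The action -/

section Action

variable {p : ℕ} [hp : Fact p.Prime] {B : Type} [BooleanAlgebra B] (e : B ≃o B)

/-- the action of `ℤ / p` -/
def sg (k : ZMod p) : B ≃o B := e ^ k.val

variable (he : e ^ p = 1)
include he

theorem sg_add (k l : ZMod p) (b : B) : sg e k (sg e l b) = sg e (k + l) b := by
  unfold sg
  rw [ZMod.val_add, ← pow_eq_pow_mod _ he, pow_add]
  rfl

omit he in
theorem sg_zero (b : B) : sg e (0 : ZMod p) b = b := by
  unfold sg
  rw [ZMod.val_zero, pow_zero]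
  rfl

omit he in
theorem sg_one (b : B) : sg e (1 : ZMod p) b = e b := by
  unfold sg
  have : Fact (1 < p) := ⟨hp.out.one_lt⟩
  rw [ZMod.val_one, pow_one]

theorem sg_nat (i : ℕ) (b : B) : (e ^ i) b = sg e (i : ZMod p) b := by
  unfold sg
  rw [ZMod.val_natCast, ← pow_eq_pow_mod _ he]

/-- a point sees at most one translate -/
def Uq (e : B ≃o B) (d : B) : Prop :=
  ∀ (q : Pt B) (k l : ZMod p), q.v (sg e k d) → q.v (sg e l d) → k = l

open Classical in
/-- the pattern of `b` at a point -/
noncomputable def S (q : Pt B) (b : B) : Finset (ZMod p) := univ.filter fun i => q.v (sg e i b)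

omit he in
theorem mem_S {q : Pt B} {b : B} {i : ZMod p} : i ∈ S e q b ↔ q.v (sg e i b) := by
  unfold S
  simp

open Classical in
/-- a set of representatives of the orbits of patterns -/
noncomputable def R (p : ℕ) [Fact p.Prime] : Finset (Finset (ZMod p)) :=
  univ.filter fun S => S.card ≠ 0 ∧ S.card ≠ p ∧ ∑ i ∈ S, i = 0

open Classical in
/-- the points at which the pattern of `b` is a representative -/
noncomputable def dd (b : B) : B := (R p).sup fun S => univ.inf fun i => if i ∈ S then sg e i b else (sg e i b)ᶜ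

omit he in
theorem dd_v (q : Pt B) (b : B) : q.v (dd (p := p) e b) ↔ (S (p := p) e q b).card ≠ 0 ∧
    (S (p := p) e q b).card ≠ p ∧ ∑ i ∈ S (p := p) e q b, i = 0 := by
  classical
  unfold dd
  rw [pfsup]
  have h1 : ∀ T : Finset (ZMod p), q.v (univ.inf fun i => if i ∈ T then sg e i b
      else (sg e i b)ᶜ) ↔ T = S e q b := by
    intro T
    rw [pfinf]
    constructor
    · intro h
      ext i
      have h2 := h i (mem_univ i)
      rw [mem_S]
      by_cases hi : i ∈ T
      · rw [if_pos hi] at h2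
        exact ⟨fun _ => h2, fun _ => hi⟩
      · rw [if_neg hi, q.compl] at h2
        exact ⟨fun h3 => absurd h3 hi, fun h3 => absurd h3 h2⟩
    · intro h i _
      by_cases hi : i ∈ T
      · rw [if_pos hi, ← mem_S, ← h]
        exact hi
      · rw [if_neg hi, q.compl, ← mem_S, ← h]
        exact hi
  constructor
  · rintro ⟨T, hT, hv⟩
    have h2 := (h1 T).1 hv
    unfold R at hT
    rw [mem_filter] at hT
    rw [← h2]
    exact hT.2
  · intro h
    refine ⟨S e q b, ?_, (h1 _).2 rfl⟩
    unfold R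
    rw [mem_filter]
    exact ⟨mem_univ _, h⟩

theorem dd_vk (q : Pt B) (b : B) (k : ZMod p) : q.v (sg e k (dd (p := p) e b)) ↔
    (S (p := p) e q b).card ≠ 0 ∧ (S (p := p) e q b).card ≠ p ∧
      ∑ i ∈ S (p := p) e q b, i = (S (p := p) e q b).card * k := by
  classical
  have h1 := dd_v (p := p) e (tr (sg e k) q) b
  have h2 : S (p := p) e (tr (sg e k) q) b = (S (p := p) e q b).image fun j => j - k := by
    ext i
    rw [mem_S, mem_image]
    change q.v (sg e k (sg e i b)) ↔ _
    rw [sg_add e he]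
    constructor
    · intro h
      exact ⟨k + i, (mem_S e).2 h, by ring⟩
    · rintro ⟨j, hj, rfl⟩
      rw [mem_S] at hj
      rw [add_sub_cancel]
      exact hj
  have hinj : Function.Injective fun j : ZMod p => j - k := fun a b h => sub_left_injective h
  rw [h2, card_image_of_injective _ hinj, sum_image (fun a _ b _ h => hinj h),
    sum_sub_distrib, sum_const, nsmul_eq_mul, sub_eq_zero] at h1
  exact h1

theorem dd_uq (b : B) : Uq (p := p) e (dd (p := p) e b) := by
  intro q k l hk hl
  rw [dd_vk e he] at hk hl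
  have h1 : ((S (p := p) e q b).card : ZMod p) ≠ 0 := by
    intro h
    rw [ZMod.natCast_eq_zero_iff] at h
    have h2 : (S (p := p) e q b).card ≤ p := by
      have := card_le_univ (S (p := p) e q b)
      rwa [ZMod.card] at this
    have h3 := Nat.le_of_dvd (Nat.pos_of_ne_zero hk.1) h
    exact hk.2.1 (le_antisymm h2 h3)
  have h4 := hk.2.2.symm.trans hl.2.2
  exact mul_left_cancel₀ h1 h4

theorem dd_ex (q : Pt B) (b : B) (h : ∀ k : ZMod p, ¬ q.v (sg e k (dd (p := p) e b)))
    (i : ZMod p) : q.v (sg e i b) ↔ q.v b := by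
  have h0 : q.v b ↔ q.v (sg e (0 : ZMod p) b) := by rw [sg_zero]
  rw [h0, ← mem_S, ← mem_S]
  by_cases h1 : (S (p := p) e q b).card = 0
  · rw [card_eq_zero] at h1
    rw [h1]
    simp
  by_cases h2 : (S (p := p) e q b).card = p
  · have h3 : S (p := p) e q b = univ := by
      rw [← card_eq_iff_eq_univ, h2, ZMod.card]
    rw [h3]
    simp
  exfalso
  have h3 : ((S (p := p) e q b).card : ZMod p) ≠ 0 := by
    intro h
    rw [ZMod.natCast_eq_zero_iff] at h
    have h2' : (S (p := p) e q b).card ≤ p := by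
      have := card_le_univ (S (p := p) e q b)
      rwa [ZMod.card] at this
    have h3 := Nat.le_of_dvd (Nat.pos_of_ne_zero h1) h
    exact h2 (le_antisymm h2' h3)
  apply h (((S (p := p) e q b).card : ZMod p)⁻¹ * ∑ i ∈ S (p := p) e q b, i)
  rw [dd_vk e he]
  refine ⟨h1, h2, ?_⟩
  rw [← mul_assoc, mul_inv_cancel₀ h3, one_mul]

/-! ### The increasing sequence -/

/-- the join of the translates -/
noncomputable def cj (d : B) : B := (univ : Finset (ZMod p)).sup fun k => sg e k d

omit he in
theorem cj_v (q : Pt B) (d : B) : q.v (cj (p := p) e d) ↔ ∃ k : ZMod p, q.v (sg e k d) := by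
  unfold cj
  rw [pfsup]
  simp

theorem cj_vk (q : Pt B) (d : B) (l : ZMod p) : q.v (sg e l (cj (p := p) e d)) ↔
    ∃ k : ZMod p, q.v (sg e k d) := by
  have h1 := cj_v (p := p) e (tr (sg e l) q) d
  have h2 : (tr (sg e l) q).v (cj (p := p) e d) = q.v (sg e l (cj (p := p) e d)) := rfl
  rw [← h2, h1]
  constructor
  · rintro ⟨k, hk⟩
    refine ⟨l + k, ?_⟩
    rw [← sg_add e he]
    exact hk
  · rintro ⟨k, hk⟩
    refine ⟨k - l, ?_⟩
    change q.v (sg e l (sg e (k - l) d))
    rw [sg_add e he, add_sub_cancel]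
    exact hk

/-- the sequence -/
noncomputable def dn (e : B ≃o B) (p : ℕ) [Fact p.Prime] (bb : ℕ → B) : ℕ → B
  | 0 => ⊥
  | n + 1 => dn e p bb n ⊔ (dd (p := p) e (bb n) ⊓ (cj (p := p) e (dn e p bb n))ᶜ)

variable (bb : ℕ → B)

theorem dn_succ (q : Pt B) (n : ℕ) (k : ZMod p) : q.v (sg e k (dn e p bb (n + 1))) ↔
    q.v (sg e k (dn e p bb n)) ∨ (q.v (sg e k (dd (p := p) e (bb n))) ∧
      ¬ ∃ l : ZMod p, q.v (sg e l (dn e p bb n))) := by
  rw [dn, map_sup, map_inf, map_compl' (sg e k), psup, q.inf, q.compl, cj_vk e he]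

theorem dn_uq (n : ℕ) : Uq (p := p) e (dn e p bb n) := by
  induction n with
  | zero =>
    intro q k l hk _
    rw [dn, map_bot] at hk
    exact absurd hk (pbot q)
  | succ n ih =>
    intro q k l hk hl
    rw [dn_succ e he] at hk hl
    rcases hk with hk | hk <;> rcases hl with hl | hl
    · exact ih q k l hk hl
    · exact absurd ⟨k, hk⟩ hl.2
    · exact absurd ⟨l, hl⟩ hk.2
    · exact dd_uq e he (bb n) q k l hk.1 hl.1

theorem dn_mono {m n : ℕ} (h : m ≤ n) (q : Pt B) (k : ZMod p)
    (hk : q.v (sg e k (dn e p bb m))) : q.v (sg e k (dn e p bb n)) := by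
  induction n, h using Nat.le_induction with
  | base => exact hk
  | succ n _ ih => exact (dn_succ e he bb q n k).2 (Or.inl ih)

theorem dn_uq' {m n : ℕ} (q : Pt B) (k l : ZMod p) (hk : q.v (sg e k (dn e p bb m)))
    (hl : q.v (sg e l (dn e p bb n))) : k = l :=
  dn_uq e he bb (max m n) q k l (dn_mono e he bb (le_max_left _ _) q k hk)
    (dn_mono e he bb (le_max_right _ _) q l hl)

variable (hbb : Function.Surjective bb)
include hbb

theorem fill (b : B) : ∃ N, ∀ q : Pt B, (∀ k : ZMod p, ¬ q.v (sg e k (dn e p bb N))) →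
    ∀ i : ZMod p, (q.v (sg e i b) ↔ q.v b) := by
  obtain ⟨n, rfl⟩ := hbb b
  refine ⟨n + 1, fun q hq => dd_ex e he q (bb n) fun k hk => ?_⟩
  have h1 : ∀ l : ZMod p, ¬ q.v (sg e l (dn e p bb n)) := fun l hl =>
    hq l ((dn_succ e he bb q n l).2 (Or.inl hl))
  exact hq k ((dn_succ e he bb q n k).2 (Or.inr ⟨hk, fun ⟨l, hl⟩ => h1 l hl⟩))

theorem fill' (d : B) (hd : Uq (p := p) e d) : ∃ N, ∀ q : Pt B,
    (∃ k : ZMod p, q.v (sg e k d)) → ∃ k : ZMod p, q.v (sg e k (dn e p bb N)) := by
  obtain ⟨N, hN⟩ := fill e he bb hbb d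
  refine ⟨N, fun q ⟨k, hk⟩ => ?_⟩
  by_contra hcon
  push Not at hcon
  have h1 := hN q hcon
  have h2 := hd q k (k + 1) hk ((h1 _).2 ((h1 _).1 hk))
  have : Fact (1 < p) := ⟨hp.out.one_lt⟩
  have h3 : (1 : ZMod p) = 0 := by
    have : k + 0 = k + 1 := by rw [add_zero]; exact h2
    exact (add_left_cancel this).symm
  exact one_ne_zero h3

/-- the number which belongs to `b` -/
noncomputable def NN (b : B) : ℕ := Classical.choose (fill e he bb hbb b)

theorem NN_spec (b : B) (q : Pt B)
    (h : ∀ k : ZMod p, ¬ q.v (sg e k (dn e p bb (NN e he bb hbb b)))) (i : ZMod p) :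
    q.v (sg e i b) ↔ q.v b :=
  Classical.choose_spec (fill e he bb hbb b) q h i

/-- the coordinates of `b` -/
noncomputable def Ph (b : B) (i : ZMod p) : B :=
  (b ⊓ (cj (p := p) e (dn e p bb (NN e he bb hbb b)))ᶜ) ⊔
    (univ : Finset (ZMod p)).sup fun j => sg e j b ⊓ sg e (i + j) (dn e p bb (NN e he bb hbb b))

theorem Ph_v (q : Pt B) (b : B) (i : ZMod p) : q.v (Ph e he bb hbb b i) ↔
    (q.v b ∧ ¬ ∃ k : ZMod p, q.v (sg e k (dn e p bb (NN e he bb hbb b)))) ∨
      ∃ j : ZMod p, q.v (sg e j b) ∧ q.v (sg e (i + j) (dn e p bb (NN e he bb hbb b))) := by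
  unfold Ph
  rw [psup, q.inf, q.compl, cj_v, pfsup]
  simp only [mem_univ, true_and, q.inf]

theorem Ph_t {q : Pt B} {n : ℕ} {t : ZMod p} (ht : q.v (sg e t (dn e p bb n))) (b : B)
    (i : ZMod p) : q.v (Ph e he bb hbb b i) ↔ q.v (sg e (t - i) b) := by
  rw [Ph_v]
  by_cases h : ∃ k : ZMod p, q.v (sg e k (dn e p bb (NN e he bb hbb b)))
  · obtain ⟨k, hk⟩ := h
    have h1 : t = k := dn_uq' e he bb q t k ht hk
    subst h1
    constructor
    · rintro (⟨_, h2⟩ | ⟨j, hj, h2⟩)
      · exact absurd ⟨t, hk⟩ h2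
      · have h3 := dn_uq e he bb _ q _ _ h2 hk
        rw [← h3, add_sub_cancel_left]
        exact hj
    · intro h2
      refine Or.inr ⟨t - i, h2, ?_⟩
      rw [add_sub_cancel]
      exact hk
  · have h1 := NN_spec e he bb hbb b q (fun k hk => h ⟨k, hk⟩)
    rw [h1]
    constructor
    · rintro (⟨h2, _⟩ | ⟨j, _, h2⟩)
      · exact h2
      · exact absurd ⟨_, h2⟩ h
    · intro h2
      exact Or.inl ⟨h2, h⟩

theorem Ph_n {q : Pt B} (hq : ∀ (n : ℕ) (t : ZMod p), ¬ q.v (sg e t (dn e p bb n))) (b : B)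
    (i : ZMod p) : q.v (Ph e he bb hbb b i) ↔ q.v b := by
  rw [Ph_v]
  constructor
  · rintro (⟨h2, _⟩ | ⟨j, _, h2⟩)
    · exact h2
    · exact absurd h2 (hq _ _)
  · intro h2
    exact Or.inl ⟨h2, fun ⟨k, hk⟩ => hq _ _ hk⟩

theorem sg_n {q : Pt B} (hq : ∀ (n : ℕ) (t : ZMod p), ¬ q.v (sg e t (dn e p bb n))) (b : B)
    (i : ZMod p) : q.v (sg e i b) ↔ q.v b :=
  NN_spec e he bb hbb b q (fun k => hq _ k) i

omit hbb in
theorem cases_q (q : Pt B) : (∃ (n : ℕ) (t : ZMod p), q.v (sg e t (dn e p bb n))) ∨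
    ∀ (n : ℕ) (t : ZMod p), ¬ q.v (sg e t (dn e p bb n)) := by
  by_cases h : ∃ (n : ℕ) (t : ZMod p), q.v (sg e t (dn e p bb n))
  · exact Or.inl h
  · right
    intro n t ht
    exact h ⟨n, t, ht⟩

/-! ### The properties -/

theorem P1 (b : B) (i k : ZMod p) (q : Pt B) :
    q.v (sg e k (Ph e he bb hbb b i)) ↔ q.v (Ph e he bb hbb b i) := by
  have h0 : q.v (sg e k (Ph e he bb hbb b i)) = (tr (sg e k) q).v (Ph e he bb hbb b i) := rfl
  rw [h0]
  rcases cases_q e he bb q with ⟨n, t, ht⟩ | hq
  · have h1 : (tr (sg e k) q).v (sg e (t - k) (dn e p bb n)) := by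
      change q.v (sg e k (sg e (t - k) (dn e p bb n)))
      rw [sg_add e he, add_sub_cancel]
      exact ht
    rw [Ph_t e he bb hbb h1, Ph_t e he bb hbb ht]
    change q.v (sg e k (sg e (t - k - i) b)) ↔ _
    rw [sg_add e he]
    have : k + (t - k - i) = t - i := by ring
    rw [this]
  · have h1 : ∀ (n : ℕ) (t : ZMod p), ¬ (tr (sg e k) q).v (sg e t (dn e p bb n)) := by
      intro n t ht
      change q.v (sg e k (sg e t (dn e p bb n))) at ht
      rw [sg_add e he] at ht
      exact hq _ _ ht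
    rw [Ph_n e he bb hbb h1, Ph_n e he bb hbb hq]
    exact sg_n e he bb hbb hq b k

theorem P2 (a b : B) : a ≤ b ↔ ∀ i : ZMod p, Ph e he bb hbb a i ≤ Ph e he bb hbb b i := by
  constructor
  · intro h i
    apply le_of
    intro q
    rcases cases_q e he bb q with ⟨n, t, ht⟩ | hq
    · rw [Ph_t e he bb hbb ht, Ph_t e he bb hbb ht]
      exact pmono q ((sg e (t - i)).monotone h)
    · rw [Ph_n e he bb hbb hq, Ph_n e he bb hbb hq]
      exact pmono q h
  · intro h
    apply le_of
    intro q
    rcases cases_q e he bb q with ⟨n, t, ht⟩ | hq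
    · have h1 := pmono q (h t)
      rw [Ph_t e he bb hbb ht, Ph_t e he bb hbb ht, sub_self, sg_zero, sg_zero] at h1
      exact h1
    · have h1 := pmono q (h 0)
      rw [Ph_n e he bb hbb hq, Ph_n e he bb hbb hq] at h1
      exact h1

theorem P3 (b : B) (i : ZMod p) : Ph e he bb hbb (e b) i = Ph e he bb hbb b (i - 1) := by
  apply ext_of
  intro q
  rcases cases_q e he bb q with ⟨n, t, ht⟩ | hq
  · rw [Ph_t e he bb hbb ht, Ph_t e he bb hbb ht, ← sg_one (p := p) e b, sg_add e he]
    have : t - i + 1 = t - (i - 1) := by ring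
    rw [this]
  · rw [Ph_n e he bb hbb hq, Ph_n e he bb hbb hq, ← sg_one (p := p) e b]
    exact sg_n e he bb hbb hq b 1

theorem sg_fix {b : B} (h : e b = b) (k : ZMod p) : sg e k b = b := by
  unfold sg
  have : ∀ m : ℕ, (e ^ m) b = b := by
    intro m
    induction m with
    | zero => rfl
    | succ m ih =>
      rw [pow_succ]
      change (e ^ m) (e b) = b
      rw [h, ih]
  exact this _

theorem P4 (b : B) (h : e b = b) (i : ZMod p) : Ph e he bb hbb b i = b := by
  apply ext_of
  intro q
  rcases cases_q e he bb q with ⟨n, t, ht⟩ | hq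
  · rw [Ph_t e he bb hbb ht, sg_fix e he bb hbb h]
  · rw [Ph_n e he bb hbb hq]

/-- free elements, in terms of points -/
def FV (e : B ≃o B) (p : ℕ) [Fact p.Prime] (c : B) : Prop :=
  ∃ d : B, Uq (p := p) e d ∧ ∀ q : Pt B, q.v c ↔ ∃ k : ZMod p, q.v (sg e k d)

theorem P5 (b : B) (i j : ZMod p) :
    FV e p (symmDiff (Ph e he bb hbb b i) (Ph e he bb hbb b j)) := by
  set x := symmDiff (Ph e he bb hbb b i) (Ph e he bb hbb b j) with hx
  have hxk : ∀ (q : Pt B) (k : ZMod p), q.v (sg e k x) ↔ q.v x := by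
    intro q k
    have h0 : q.v (sg e k x) = (tr (sg e k) q).v x := rfl
    rw [h0, hx, psymm, psymm]
    have h1 := P1 e he bb hbb b i k q
    have h2 := P1 e he bb hbb b j k q
    change ¬ (q.v (sg e k (Ph e he bb hbb b i)) ↔ q.v (sg e k (Ph e he bb hbb b j))) ↔ _
    rw [h1, h2]
  refine ⟨dn e p bb (NN e he bb hbb b) ⊓ x, ?_, ?_⟩
  · intro q k l hk hl
    rw [map_inf, q.inf] at hk hl
    exact dn_uq e he bb _ q k l hk.1 hl.1
  · intro q
    constructor
    · intro h
      by_contra hcon
      have h1 : ∀ k : ZMod p, ¬ q.v (sg e k (dn e p bb (NN e he bb hbb b))) := by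
        intro k hk
        apply hcon
        refine ⟨k, ?_⟩
        rw [map_inf, q.inf]
        exact ⟨hk, (hxk q k).2 h⟩
      have h2 := NN_spec e he bb hbb b q h1
      rw [hx, psymm] at h
      apply h
      rcases cases_q e he bb q with ⟨n, t, ht⟩ | hq
      · rw [Ph_t e he bb hbb ht, Ph_t e he bb hbb ht, h2, h2]
      · rw [Ph_n e he bb hbb hq, Ph_n e he bb hbb hq]
    · rintro ⟨k, hk⟩
      rw [map_inf, q.inf] at hk
      exact (hxk q k).1 hk.2

theorem P6 (c : ZMod p → B) (hc : ∀ i, e (c i) = c i)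
    (hf : ∀ i j, FV e p (symmDiff (c i) (c j))) : ∃ b, Ph e he bb hbb b = c := by
  -- a common number
  have h1 : ∀ i : ZMod p, ∃ N, ∀ q : Pt B, q.v (symmDiff (c i) (c 0)) →
      ∃ k : ZMod p, q.v (sg e k (dn e p bb N)) := by
    intro i
    obtain ⟨d, hd, hd'⟩ := hf i 0
    obtain ⟨N, hN⟩ := fill' e he bb hbb d hd
    exact ⟨N, fun q hq => hN q ((hd' q).1 hq)⟩
  choose N0 hN0 using h1
  obtain ⟨N, hN⟩ : ∃ N, ∀ i, N0 i ≤ N := ⟨univ.sup N0, fun i => le_sup (mem_univ i)⟩
  have h2 : ∀ (i : ZMod p) (q : Pt B), (∀ k : ZMod p, ¬ q.v (sg e k (dn e p bb N))) →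
      (q.v (c i) ↔ q.v (c 0)) := by
    intro i q hq
    by_contra hcon
    obtain ⟨k, hk⟩ := hN0 i q ((psymm q _ _).2 hcon)
    exact hq k (dn_mono e he bb (hN i) q k hk)
  -- the element
  let b : B := (c 0 ⊓ (cj (p := p) e (dn e p bb N))ᶜ) ⊔
    (univ : Finset (ZMod p)).sup fun i => c i ⊓ sg e i (dn e p bb N)
  have hb : ∀ q : Pt B, q.v b ↔ (q.v (c 0) ∧ ¬ ∃ k : ZMod p, q.v (sg e k (dn e p bb N))) ∨
      ∃ i : ZMod p, q.v (c i) ∧ q.v (sg e i (dn e p bb N)) := by
    intro q
    change q.v ((c 0 ⊓ (cj (p := p) e (dn e p bb N))ᶜ) ⊔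
      (univ : Finset (ZMod p)).sup fun i => c i ⊓ sg e i (dn e p bb N)) ↔ _
    rw [psup, q.inf, q.compl, cj_v, pfsup]
    simp only [mem_univ, true_and, q.inf]
  refine ⟨b, funext fun i => ext_of fun q => ?_⟩
  rcases cases_q e he bb q with ⟨n, t, ht⟩ | hq
  · rw [Ph_t e he bb hbb ht]
    have h3 : q.v (sg e (t - i) b) = (tr (sg e (t - i)) q).v b := rfl
    rw [h3, hb]
    have h4 : ∀ j l : ZMod p, (tr (sg e j) q).v (c l) ↔ q.v (c l) := by
      intro j l
      change q.v (sg e j (c l)) ↔ _
      rw [sg_fix e he bb hbb (hc l)]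
    have h5 : ∀ j l : ZMod p, (tr (sg e j) q).v (sg e l (dn e p bb N)) ↔
        q.v (sg e (j + l) (dn e p bb N)) := by
      intro j l
      change q.v (sg e j (sg e l _)) ↔ _
      rw [sg_add e he]
    simp only [h4, h5]
    by_cases h6 : ∃ k : ZMod p, q.v (sg e k (dn e p bb N))
    · obtain ⟨k, hk⟩ := h6
      have h7 : t = k := dn_uq' e he bb q t k ht hk
      subst h7
      constructor
      · rintro (⟨_, h8⟩ | ⟨l, hl, h8⟩)
        · exfalso
          apply h8
          refine ⟨i, ?_⟩
          rw [sub_add_cancel]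
          exact hk
        · have h9 := dn_uq e he bb _ q _ _ h8 hk
          have h10 : l = i := by
            have : t - i + l = t - i + i := by rw [h9, sub_add_cancel]
            exact add_left_cancel this
          rw [← h10]
          exact hl
      · intro h8
        refine Or.inr ⟨i, h8, ?_⟩
        rw [sub_add_cancel]
        exact hk
    · have h7 := h2 i q fun k hk => h6 ⟨k, hk⟩
      rw [h7]
      constructor
      · rintro (⟨h8, _⟩ | ⟨l, _, h8⟩)
        · exact h8
        · exact absurd ⟨_, h8⟩ h6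
      · intro h8
        refine Or.inl ⟨h8, ?_⟩
        rintro ⟨k, hk⟩
        exact h6 ⟨_, hk⟩
  · rw [Ph_n e he bb hbb hq, hb, h2 i q fun k => hq N k]
    constructor
    · rintro (⟨h8, _⟩ | ⟨l, _, h8⟩)
      · exact h8
      · exact absurd h8 (hq _ _)
    · intro h8
      exact Or.inl ⟨h8, fun ⟨k, hk⟩ => hq _ _ hk⟩

end Action

/-! ### Conclusion -/

theorem AUA : S_AUA := by
  intro p hp B _ _ s hs hsp
  -- the automorphism
  have hinj : Function.Injective s := by
    intro a b h
    exact le_antisymm ((hs a b).2 h.le) ((hs b a).2 h.ge)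
  have hpp : 0 < p := hp.out.pos
  have hsurj : Function.Surjective s := by
    intro a
    refine ⟨s^[p - 1] a, ?_⟩
    rw [← Function.iterate_succ_apply' s (p - 1) a, Nat.succ_eq_add_one, Nat.sub_add_cancel hpp]
    exact hsp a
  let e : B ≃o B :=
    { toEquiv := Equiv.ofBijective s ⟨hinj, hsurj⟩
      map_rel_iff' := by
        intro a b
        exact (hs a b).symm }
  have hes : ∀ b, e b = s b := fun b => rfl
  have hei : ∀ (i : ℕ) (b : B), (e ^ i) b = s^[i] b := by
    intro i
    induction i with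
    | zero => intro b; rfl
    | succ i ih =>
      intro b
      rw [pow_succ, Function.iterate_succ_apply, ← ih]
      rfl
  have he : e ^ p = 1 := by
    ext b
    rw [hei, hsp]
    rfl
  obtain ⟨bb, hbb⟩ : ∃ bb : ℕ → B, Function.Surjective bb :=
    haveI : Nonempty B := ⟨⊥⟩
    exists_surjective_nat B
  have hval : ∀ k : ZMod p, k.val < p := fun k => ZMod.val_lt k
  -- the two notions of free elements
  have hfree : ∀ c : B, FreeP p s c ↔ FV e p c := by
    intro c
    constructor
    · rintro ⟨d, hd, hc⟩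
      have h1 : ∀ k : ZMod p, sg e k d = s^[k.val] d := fun k => hei _ _
      refine ⟨d, ?_, ?_⟩
      · intro q k l hk hl
        by_contra hkl
        have h2 : k.val ≠ l.val := fun h => hkl (ZMod.val_injective p h)
        have h3 := hd _ _ (hval k) (hval l) h2
        rw [h1] at hk hl
        have h4 := (q.inf _ _).2 ⟨hk, hl⟩
        rw [h3] at h4
        exact pbot q h4
      · intro q
        constructor
        · intro hq
          have h2 : c ≤ cj (p := p) e d := by
            rw [← hc]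
            intro i hi
            apply le_of
            intro q hq
            rw [cj_v]
            refine ⟨(i : ZMod p), ?_⟩
            rw [← sg_nat e he, hei]
            exact hq
          exact (cj_v e q d).1 (pmono q h2 hq)
        · rintro ⟨k, hk⟩
          rw [h1] at hk
          exact pmono q ((hc c).2 le_rfl _ (hval k)) hk
    · rintro ⟨d, hd, hc⟩
      refine ⟨d, ?_, ?_⟩
      · intro i j hi hj hij
        apply ext_of
        intro q
        constructor
        · intro h
          exfalso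
          rw [q.inf, ← hei, ← hei, sg_nat e he, sg_nat (p := p) e he j] at h
          have h2 := hd q _ _ h.1 h.2
          have h3 := congrArg ZMod.val h2
          rw [ZMod.val_natCast, ZMod.val_natCast, Nat.mod_eq_of_lt hi, Nat.mod_eq_of_lt hj] at h3
          exact hij h3
        · intro h
          exact absurd h (pbot q)
      · intro x
        constructor
        · intro h
          apply le_of
          intro q hq
          obtain ⟨k, hk⟩ := (hc q).1 hq
          refine pmono q (h _ (hval k)) ?_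
          rw [← hei]
          exact hk
        · intro h i hi
          apply le_of
          intro q hq
          refine pmono q h ((hc q).2 ⟨(i : ZMod p), ?_⟩)
          rw [← sg_nat e he, hei]
          exact hq
  refine ⟨Ph e he bb hbb, ?_, P2 e he bb hbb, fun b i => P3 e he bb hbb b i,
    fun b h i => P4 e he bb hbb b h i, ?_, ?_⟩
  · intro b i
    apply ext_of
    intro q
    have h1 := P1 e he bb hbb b i 1 q
    rw [sg_one] at h1
    exact h1
  · intro b i j
    rw [hfree]
    exact P5 e he bb hbb b i j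
  · intro c hc hf
    exact P6 e he bb hbb c hc fun i j => (hfree _).1 (hf i j)

end Pool.Agent.N221.VB.AUA
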